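import Mathlib
import Pool.Agent.Helper78_ACIT.Circuit
import Pool.Agent.Helper12_D3.Final

set_option autoImplicit false

/-!
Deterministic identity test for circuits of unbounded degree whose output is a sum of products of
powers of affine forms with small clusters.
-/

namespace Pool.Agent.Results.MP_b2b50d_lc.BoundedTopFanin

open Polynomial Pool.Agent.Helper78_ACIT

/-- The affine form `a_0 + a_1 x_0 + ... + a_n x_(n-1)`. -/
noncomputable def affine {n : ℕ} (a : Fin (n + 1) → ℤ) : MvPolynomial ℕ ℤ :=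
  MvPolynomial.C (a 0) + ∑ s : Fin n, MvPolynomial.C (a s.succ) * MvPolynomial.X (s : ℕ)

/-- Two of the `k` terms are adjacent if all their `m` exponents differ by at most `B`. -/
def closeGraph {k m : ℕ} (e : Fin k → Fin m → ℕ) (B : ℕ) : SimpleGraph (Fin k) where
  Adj i i' := i ≠ i' ∧ ∀ j, e i j ≤ e i' j + B ∧ e i' j ≤ e i j + B
  symm := ⟨fun _ _ h => ⟨h.1.symm, fun j => ⟨(h.2 j).2, (h.2 j).1⟩⟩⟩
  loopless := ⟨fun _ h => h.1 rfl⟩

open scoped Classical in
/-- The cluster of the term `i`: its connected component in `closeGraph e B`. -/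
noncomputable def cluster {k m : ℕ} (e : Fin k → Fin m → ℕ) (B : ℕ) (i : Fin k) : Finset (Fin k) :=
  Finset.univ.filter fun i' => (closeGraph e B).Reachable i i'

/-- The value of the circuit `G` at the point `x_s = ∑ r < t, (γ_r + δ_r X) β_r ^ (s + 1)` in the
finite ring `F_p[X] / (X ^ N)`. -/
noncomputable def testValue (p N t : ℕ) (β γ δ : Fin t → ZMod p) (G : List Gate) :
    AdjoinRoot (X ^ N : (ZMod p)[X]) :=
  out (fun s => ∑ r, (AdjoinRoot.of _ (γ r) + AdjoinRoot.of _ (δ r) * AdjoinRoot.root _) *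
    AdjoinRoot.of _ (β r) ^ (s + 1)) G

/-- Substituting a line into a polynomial over `ℤ`. -/
noncomputable def onLine (p t : ℕ) (β γ δ : Fin t → ZMod p) :
    MvPolynomial ℕ ℤ →+* (ZMod p)[X] :=
  MvPolynomial.eval₂Hom (Int.castRingHom (ZMod p)[X])
    (fun s => ∑ r, (C (γ r) + C (δ r) * X) * C (β r) ^ (s + 1))

lemma testValue_eq (p N t : ℕ) (β γ δ : Fin t → ZMod p) (G : List Gate) :
    testValue p N t β γ δ G = AdjoinRoot.mk _ (onLine p t β γ δ (poly G)) := by
  have h1 := out_map (AdjoinRoot.mk (X ^ N : (ZMod p)[X]))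
    (fun s => ∑ r, (C (γ r) + C (δ r) * X) * C (β r) ^ (s + 1)) G
  have h2 : (fun s => AdjoinRoot.mk (X ^ N : (ZMod p)[X])
      (∑ r, (C (γ r) + C (δ r) * X) * C (β r) ^ (s + 1))) =
      fun s => ∑ r, (AdjoinRoot.of (X ^ N : (ZMod p)[X]) (γ r) +
        AdjoinRoot.of _ (δ r) * AdjoinRoot.root _) * AdjoinRoot.of _ (β r) ^ (s + 1) := by
    funext s
    simp only [map_sum, map_mul, map_add, map_pow, AdjoinRoot.mk_C, AdjoinRoot.mk_X]
  rw [h2] at h1
  unfold testValue
  rw [← h1, out_eq_eval]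
  rfl

lemma onLine_sum (p t n m k : ℕ) (β γ δ : Fin t → ZMod p) (a : Fin m → Fin (n + 1) → ℤ)
    (c : Fin k → ℤ) (e : Fin k → Fin m → ℕ) :
    onLine p t β γ δ (∑ i, MvPolynomial.C (c i) * ∏ j, affine (a j) ^ e i j) =
      ∑ i, C (c i : ZMod p) * ∏ j, (C (a j 0 : ZMod p) +
        ∑ s : Fin n, C (a j s.succ : ZMod p) *
        ∑ r, (C (γ r) + C (δ r) * X) * C (β r) ^ ((s : ℕ) + 1)) ^ e i j := by
  have hC : ∀ z : ℤ, onLine p t β γ δ (MvPolynomial.C z) = C (z : ZMod p) := by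
    intro z
    unfold onLine
    rw [MvPolynomial.coe_eval₂Hom, MvPolynomial.eval₂_C]
    simp
  have hX : ∀ s : ℕ, onLine p t β γ δ (MvPolynomial.X s) =
      ∑ r, (C (γ r) + C (δ r) * X) * C (β r) ^ (s + 1) := by
    intro s
    unfold onLine
    rw [MvPolynomial.coe_eval₂Hom, MvPolynomial.eval₂_X]
  unfold affine
  simp only [map_sum, map_mul, map_prod, map_pow, map_add, hC, hX]

/-- Let `F = ∑ i < k, c_i ∏ j < m, L_j ^ e_ij` where the `L_j` are nonconstant, pairwise
non-proportional affine forms in `x_0, ..., x_(n-1)` with coefficients at most `2 ^ b`, and the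
`c_i` and the exponents are at most `2 ^ b`. Suppose that every cluster of terms has at most `t`
elements (for instance `k ≤ t`). Then a circuit `G` whose polynomial is zero or divides `F ≠ 0`
computes zero if and only if it vanishes at all the points
`x_s = ∑ r < t, (γ_r + δ_r X) β_r ^ (s + 1)` modulo `X ^ (k ^ 2 m + k)` over `F_p`, for all primes
`p ≤ (n + m + k + b + 2) ^ (4 (t + 11))`. -/
theorem result (n m k t b : ℕ) (ht : 2 ≤ t) (a : Fin m → Fin (n + 1) → ℤ) (c : Fin k → ℤ)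
    (e : Fin k → Fin m → ℕ) (ha : ∀ j s, |a j s| ≤ 2 ^ b) (hc : ∀ i, |c i| ≤ 2 ^ b)
    (he : ∀ i j, e i j ≤ 2 ^ b) (hnonconst : ∀ j, ∃ s : Fin n, a j s.succ ≠ 0)
    (hnonprop : ∀ j j', j ≠ j' → ∃ s s', a j s * a j' s' ≠ a j s' * a j' s)
    (hsize : ∀ i, (cluster e (k ^ 2 * m) i).card ≤ t)
    (G : List Gate) (hG : WellFormed G)
    (hpoly : poly G = 0 ∨
      (∑ i, MvPolynomial.C (c i) * ∏ j, affine (a j) ^ e i j ≠ 0 ∧
        poly G ∣ ∑ i, MvPolynomial.C (c i) * ∏ j, affine (a j) ^ e i j)) :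
    G ∈ ACIT ↔ ∀ p, p.Prime → p ≤ (n + m + k + b + 2) ^ (4 * (t + 11)) →
      ∀ β γ δ : Fin t → ZMod p, testValue p (k ^ 2 * m + k) t β γ δ G = 0 := by
  constructor
  · rintro ⟨-, h0⟩ p _ _ β γ δ
    rw [testValue_eq, h0, map_zero, map_zero]
  · intro htest
    refine ⟨hG, ?_⟩
    rcases hpoly with h0 | ⟨hF, hdvd⟩
    · exact h0
    exfalso
    have hk : k * (k * m) = k ^ 2 * m := by ring
    obtain ⟨p, hp, hple, β, γ, δ, hhit⟩ := Helper12_D3.exists_hit n m k t b ht a c e ha hc he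
      hnonconst hnonprop (by rw [hk]; exact Or.inl hsize) hF
    have h1 := htest p hp (hple.trans (Helper12_D3.bound_le n m k t b)) β γ δ
    rw [testValue_eq, AdjoinRoot.mk_eq_zero] at h1
    apply hhit (k ^ 2 * m + k) (by rw [hk])
    rw [← onLine_sum]
    exact h1.trans (map_dvd (onLine p t β γ δ) hdvd)

end Pool.Agent.Results.MP_b2b50d_lc.BoundedTopFanin
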