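import Mathlib
import Pool.Agent.Helper78_ACIT.Circuit
import Pool.Agent.Helper12_TD.Size

set_option autoImplicit false

/-!
# `MP_b2b50d_lc`: deterministic identity test for circuits of exponential degree, bounded
transcendence degree

The test applies to all circuits, of any shape, whose polynomial is zero or divides a nonzero
polynomial `F = ∑ i < k, A_i ∏ j < m, f_j ^ e_ij`, where the `f_j` and `A_i` are sparse polynomials
in any number of variables of transcendence degree at most `r` and the exponents are written in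
binary.
-/

namespace Pool.Agent.Results.MP_b2b50d_lc.BoundedTranscendence

open Polynomial Pool.Agent.Helper78_ACIT

/-- The sum of the absolute values of the coefficients. -/
noncomputable def length {n : ℕ} (f : MvPolynomial (Fin n) ℤ) : ℕ :=
  ∑ d ∈ f.support, (f.coeff d).natAbs

/-- The value of the circuit `G` at the point
`x_s = (α_0 + β_0 X) ^ (τ ^ s mod q) + ∑_{i : ν i = s} (α_(i+1) + β_(i+1) X)` (and `x_s = 0` for
`s ≥ n`) in the finite ring `F_p[X] / (X ^ N)`. -/
noncomputable def testValue (n q τ r p N : ℕ) (ν : Fin r → Fin (n + 1)) (α β : Fin (r + 1) → ZMod p)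
    (G : List Gate) : AdjoinRoot (X ^ N : (ZMod p)[X]) :=
  out (fun s => if s < n then
    (AdjoinRoot.of _ (α 0) + AdjoinRoot.of _ (β 0) * AdjoinRoot.root _) ^ (τ ^ s % q)
      + ∑ i : Fin r, if (ν i : ℕ) = s then
        AdjoinRoot.of _ (α i.succ) + AdjoinRoot.of _ (β i.succ) * AdjoinRoot.root _ else 0
    else 0) G

/-- The substitution on polynomials. -/
noncomputable def onCurve (n q τ r p : ℕ) (ν : Fin r → Fin (n + 1)) (α β : Fin (r + 1) → ZMod p) :
    MvPolynomial ℕ ℤ →+* (ZMod p)[X] :=
  MvPolynomial.eval₂Hom (Int.castRingHom (ZMod p)[X]) (fun s => if s < n then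
    (C (α 0) + C (β 0) * X) ^ (τ ^ s % q)
      + ∑ i : Fin r, if (ν i : ℕ) = s then C (α i.succ) + C (β i.succ) * X else 0
    else 0)

lemma testValue_eq (n q τ r p N : ℕ) (ν : Fin r → Fin (n + 1)) (α β : Fin (r + 1) → ZMod p)
    (G : List Gate) :
    testValue n q τ r p N ν α β G = AdjoinRoot.mk _ (onCurve n q τ r p ν α β (poly G)) := by
  have h1 := out_map (AdjoinRoot.mk (X ^ N : (ZMod p)[X])) (fun s => if s < n then
    (C (α 0) + C (β 0) * X) ^ (τ ^ s % q)
      + ∑ i : Fin r, if (ν i : ℕ) = s then C (α i.succ) + C (β i.succ) * X else 0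
    else 0) G
  have h2 : (fun s => AdjoinRoot.mk (X ^ N : (ZMod p)[X]) (if s < n then
      (C (α 0) + C (β 0) * X) ^ (τ ^ s % q)
      + ∑ i : Fin r, if (ν i : ℕ) = s then C (α i.succ) + C (β i.succ) * X else 0
    else 0)) = fun s => if s < n then
    (AdjoinRoot.of (X ^ N : (ZMod p)[X]) (α 0) + AdjoinRoot.of _ (β 0) * AdjoinRoot.root _)
        ^ (τ ^ s % q)
      + ∑ i : Fin r, if (ν i : ℕ) = s then
        AdjoinRoot.of _ (α i.succ) + AdjoinRoot.of _ (β i.succ) * AdjoinRoot.root _ else 0
    else 0 := by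
    funext s
    have e1 : ∀ a b : ZMod p, AdjoinRoot.mk (X ^ N : (ZMod p)[X]) (C a + C b * X)
        = AdjoinRoot.of (X ^ N : (ZMod p)[X]) a + AdjoinRoot.of _ b * AdjoinRoot.root _ := by
      intro a b
      rw [map_add, map_mul, AdjoinRoot.mk_C, AdjoinRoot.mk_C, AdjoinRoot.mk_X]
    by_cases hs : s < n
    · rw [if_pos hs, if_pos hs, map_add, map_pow, map_sum, e1]
      congr 1
      apply Finset.sum_congr rfl
      intro i _
      by_cases hi : (ν i : ℕ) = s
      · rw [if_pos hi, if_pos hi, e1]
      · rw [if_neg hi, if_neg hi, map_zero]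
    · rw [if_neg hs, if_neg hs, map_zero]
  rw [h2] at h1
  unfold testValue
  rw [← h1, out_eq_eval]
  rfl

lemma onCurve_rename (n q τ r p : ℕ) (ν : Fin r → Fin (n + 1)) (α β : Fin (r + 1) → ZMod p)
    (F : MvPolynomial (Fin n) ℤ) :
    onCurve n q τ r p ν α β (MvPolynomial.rename Fin.val F)
      = Helper12_FV.onl α β (Helper12_TD.phi ℤ n q τ r ν F) := by
  have h : (onCurve n q τ r p ν α β).comp
      (MvPolynomial.rename (R := ℤ) (Fin.val : Fin n → ℕ)).toRingHom =
      (Helper12_FV.onl α β).comp (Helper12_TD.phi ℤ n q τ r ν).toRingHom := by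
    apply MvPolynomial.ringHom_ext
    · intro z
      simp
    · intro s
      have h1 : ((onCurve n q τ r p ν α β).comp
        (MvPolynomial.rename (R := ℤ) (Fin.val : Fin n → ℕ)).toRingHom) (MvPolynomial.X s)
        = (C (α 0) + C (β 0) * X) ^ (τ ^ (s : ℕ) % q)
          + ∑ i : Fin r, if (ν i : ℕ) = s then C (α i.succ) + C (β i.succ) * X else 0 := by
        simp [onCurve]
      have h2 : ((Helper12_FV.onl α β).comp (Helper12_TD.phi ℤ n q τ r ν).toRingHom)
          (MvPolynomial.X s) = (C (α 0) + C (β 0) * X) ^ (τ ^ (s : ℕ) % q)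
          + ∑ i : Fin r, if (ν i : ℕ) = s then C (α i.succ) + C (β i.succ) * X else 0 := by
        change Helper12_FV.onl α β (Helper12_TD.phi ℤ n q τ r ν (MvPolynomial.X s)) = _
        rw [Helper12_TD.phi_X, map_add, map_pow, Helper12_FV.onl_X, map_sum]
        congr 1
        apply Finset.sum_congr rfl
        intro i _
        by_cases hi : ν i = s.castSucc
        · rw [if_pos hi, if_pos (by rw [hi]; rfl), Helper12_FV.onl_X]
        · have hi' : ¬ (ν i : ℕ) = (s : ℕ) := fun h => hi (Fin.ext h)
          rw [if_neg hi, if_neg hi', map_zero]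
      rw [h1, h2]
  exact RingHom.congr_fun h F

/-- Let `F = ∑ i < k, A_i ∏ j < m, f_j ^ e_ij` where the `f_j` and `A_i` are polynomials in
`ℤ[x_0, ..., x_(n-1)]` with at most `S` monomials, of degree at most `D` and length at most `2 ^ b`,
the `f_j` are primitive, at most `r` of the `f_j` and `A_i` are algebraically independent over `ℚ`,
and the exponents `e_ij` are at most `2 ^ b`.  Then a circuit `G` whose polynomial is zero or
divides `F ≠ 0` computes zero if and only if it vanishes at all the explicit test points. -/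
theorem result (n m k D S b r q : ℕ) (hq : q.Prime) (hS : 1 ≤ S)
    (hbig : n * ((r.factorial * S ^ r) ^ 2 + m * S ^ 2) + r * D + D < q)
    (f : Fin m → MvPolynomial (Fin n) ℤ) (A : Fin k → MvPolynomial (Fin n) ℤ)
    (e : Fin k → Fin m → ℕ)
    (hprim : ∀ j, ∀ z : ℤ, MvPolynomial.C z ∣ f j → IsUnit z)
    (htr : ∀ s (g : Fin s → Fin m ⊕ Fin k), AlgebraicIndependent ℚ
      (fun i => MvPolynomial.map (Int.castRingHom ℚ) (Sum.elim f A (g i))) → s ≤ r)
    (hfS : ∀ j, (f j).support.card ≤ S) (hAS : ∀ i, (A i).support.card ≤ S)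
    (hfD : ∀ j, (f j).totalDegree ≤ D) (hAD : ∀ i, (A i).totalDegree ≤ D)
    (hfb : ∀ j, length (f j) ≤ 2 ^ b) (hAb : ∀ i, length (A i) ≤ 2 ^ b)
    (he : ∀ i j, e i j ≤ 2 ^ b) (G : List Gate) (hG : WellFormed G)
    (hpoly : poly G = 0 ∨
      (∑ i, A i * ∏ j, f j ^ e i j ≠ 0 ∧
        poly G ∣ MvPolynomial.rename Fin.val (∑ i, A i * ∏ j, f j ^ e i j))) :
    G ∈ ACIT ↔ ∀ ν : Fin r → Fin (n + 1), ∀ τ < q, ∀ p, p.Prime →
      p ≤ (m + k + (b + r * D) + q * D + 2) ^ 50 → ∀ α β : Fin (r + 1) → ZMod p,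
        testValue n q τ r p (k ^ 2 * m * (q * D) + k * (q * D) + k) ν α β G = 0 := by
  constructor
  · rintro ⟨-, h0⟩ ν τ _ p _ _ α β
    rw [testValue_eq, h0, map_zero, map_zero]
  · intro htest
    refine ⟨hG, ?_⟩
    rcases hpoly with h0 | ⟨hF, hdvd⟩
    · exact h0
    exfalso
    have hcast : Function.Injective (Int.castRingHom ℚ) := RingHom.injective_int _
    obtain ⟨F, hFdef⟩ : ∃ F, F = ∑ i, A i * ∏ j, f j ^ e i j := ⟨_, rfl⟩
    rw [← hFdef] at hF hdvd
    obtain ⟨ν, τ, hτ, hfaith, hsep⟩ := Helper12_TD.exists_faithful (n := n) (r := r) (S := S)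
      (D := D) (q := q) hq
      (fun i : Fin m ⊕ Fin k => MvPolynomial.map (Int.castRingHom ℚ) (Sum.elim f A i))
      (by
        rintro (j | i)
        · rw [MvPolynomial.support_map_of_injective _ hcast]; exact hfS j
        · rw [MvPolynomial.support_map_of_injective _ hcast]; exact hAS i)
      (by
        have h1 : ∀ P : MvPolynomial (Fin n) ℤ,
            (MvPolynomial.map (Int.castRingHom ℚ) P).totalDegree = P.totalDegree := by
          intro P
          unfold MvPolynomial.totalDegree
          rw [MvPolynomial.support_map_of_injective _ hcast]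
        rintro (j | i)
        · rw [h1]; exact hfD j
        · rw [h1]; exact hAD i) htr Finset.univ (fun j => (f j).support) (fun j _ => hfS j)
      (by
        intro j _ a ha s
        have h1 := MvPolynomial.le_totalDegree ha
        rw [Finsupp.sum_fintype _ _ (fun _ => rfl)] at h1
        have h2 : a s ≤ ∑ i, a i := Finset.single_le_sum (f := fun i => a i)
          (fun _ _ => Nat.zero_le _) (Finset.mem_univ s)
        have h3 := hfD j
        omega)
      (by
        rw [Finset.card_univ, Fintype.card_fin]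
        omega) (by omega) hS
    -- the substituted polynomials
    have hsum : Helper12_TD.phi ℤ n q τ r ν F = ∑ i, Helper12_TD.phi ℤ n q τ r ν (A i)
        * ∏ j, Helper12_TD.phi ℤ n q τ r ν (f j) ^ e i j := by
      rw [hFdef, map_sum]
      apply Finset.sum_congr rfl
      intro i _
      rw [map_mul, map_prod]
      simp only [map_pow]
    have hne : Helper12_TD.phi ℤ n q τ r ν F ≠ 0 := by
      intro h0
      have h1 : Helper12_TD.phi ℚ n q τ r ν (MvPolynomial.map (Int.castRingHom ℚ) F) ≠ 0 := by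
        apply hfaith
        · have hmem : ∀ i : Fin m ⊕ Fin k, MvPolynomial.map (Int.castRingHom ℚ) (Sum.elim f A i) ∈
              Algebra.adjoin ℚ (Set.range fun i : Fin m ⊕ Fin k =>
                MvPolynomial.map (Int.castRingHom ℚ) (Sum.elim f A i)) := fun i =>
            Algebra.subset_adjoin (Set.mem_range_self i)
          rw [hFdef, map_sum]
          refine Subalgebra.sum_mem _ (fun i _ => ?_)
          rw [map_mul, map_prod]
          refine Subalgebra.mul_mem _ (hmem (Sum.inr i)) (Subalgebra.prod_mem _ (fun j _ => ?_))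
          rw [map_pow]
          exact Subalgebra.pow_mem _ (hmem (Sum.inl j)) _
        · intro h1
          exact hF ((map_eq_zero_iff _ (MvPolynomial.map_injective _ hcast)).1 h1)
      rw [← Helper12_TD.phi_map, h0, map_zero] at h1
      exact h1 rfl
    have hq1 : 1 ≤ q := hq.one_lt.le
    obtain ⟨R, hR⟩ : ∃ R, R = m + k + (b + r * D) + q * D + 2 := ⟨_, rfl⟩
    obtain ⟨hb1, hb2, hb3, hb4⟩ := Helper12_FV.bound_le m k (b + r * D) (q * D) R hR
    rw [hsum] at hne
    obtain ⟨p, hp, hple, α, β, hhit⟩ := Helper12_FV.exists_hit_general m k (q * D) (m * (q * D))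
      (b + r * D) (m + q * D + (b + r * D))
      (R ^ 6) (12 * R) (R ^ 11) (k * (q * D + k * (m * (q * D))))
      (fun j => Helper12_TD.phi ℤ n q τ r ν (f j)) (fun i => Helper12_TD.phi ℤ n q τ r ν (A i)) e
      (fun j z hz => Helper12_TD.phi_primitive n q τ r ν (f j) (hprim j)
        (hsep j (Finset.mem_univ j)) z hz)
      (fun j => Helper12_TD.totalDegree_phi hq1 τ r ν (f j) (hfD j))
      (fun i => Helper12_TD.totalDegree_phi hq1 τ r ν (A i) (hAD i))
      (fun j => Helper12_TD.len_phi q τ r ν (f j) (hfD j) (hfb j))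
      (fun i => Helper12_TD.len_phi q τ r ν (A i) (hAD i) (hAb i))
      (fun i j => (he i j).trans (Nat.pow_le_pow_right (by norm_num) (Nat.le_add_right _ _)))
      le_rfl le_rfl rfl (Nat.one_le_pow _ _ (by omega)) hb1 hb2 hb3 hne
    have h1 := htest ν τ hτ p hp (by rw [← hR]; exact hple.trans hb4) α β
    rw [testValue_eq, AdjoinRoot.mk_eq_zero] at h1
    apply hhit (k ^ 2 * m * (q * D) + k * (q * D) + k) (by
      have : k * (q * D + k * (m * (q * D))) = k ^ 2 * m * (q * D) + k * (q * D) := by ring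
      rw [this])
    rw [← hsum, ← onCurve_rename]
    exact h1.trans (map_dvd (onCurve n q τ r p ν α β) hdvd)

end Pool.Agent.Results.MP_b2b50d_lc.BoundedTranscendence
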