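import Mathlib
import Pool.Agent.Helper78_ACIT.Circuit
import Pool.Agent.Helper12_WBX.Walk
import Pool.Agent.Helper12_WBX.Main

set_option autoImplicit false

/-!
# `MP_b2b50d_lc`: white-box identity test for constant-read formulas

Arithmetic formulas over the constants `0`, `1` are circuits in which every gate is used at most
once.  For every `k` the identity test for formulas in which every variable occurs at most `k` times
is solved by a greedy search, for formulas of any depth which are not necessarily multilinear.  The
search visits the gates in their order and moves a point, such that no visited gate with nonzero
polynomial vanishes at the point.  At every gate it is enough to change a bounded number `B` of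
coordinates, where `B` depends on `k` only.  So for fixed `k` the test consists of polynomially many
evaluations of the formula at integral points, in which all numbers have polynomially many bits.
-/

namespace Pool.Agent.Results.MP_b2b50d_lc.ConstantReadFormulas

open Pool.Agent.Helper78_ACIT Pool.Agent.WBX

/-- For every `k` there is a number `B` such that the following holds for every formula `G` with `s`
gates in which every variable occurs at most `k` times, and for `L = k s`.
(1) For every gate `i`, the polynomial of the gate is zero if and only if the gate vanishes at the
point `walk B L G s`.  (2) `G` computes the zero polynomial if and only if `G` vanishes at this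
point.  (3) In step `i` of the walk at most `(1 + s (L + 1)) ^ B` points are searched; each of them is
given by at most `B s` pairs, and the absolute values of all gates there are at most
`(L + 2) ^ s`. -/
theorem result (k : ℕ) : ∃ B : ℕ, ∀ G : List Gate, WellFormed G → FanOutOne G →
    (∀ v, G.count (.var v) ≤ k) →
      (∀ i < G.length, ((values (MvPolynomial.X : ℕ → MvPolynomial ℕ ℤ) G).getD i 0 = 0 ↔
        (valuesAt G (walk B (k * G.length) G G.length)).getD i 0 = 0)) ∧
      (G ∈ ACIT ↔ out (fun v => (coord (walk B (k * G.length) G G.length) v : ℤ)) G = 0) ∧
      ∀ i < G.length,
        (nearby (varList G) (k * G.length) B (walk B (k * G.length) G i)).length ≤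
          (1 + G.length * (k * G.length + 1)) ^ B ∧
        ∀ c ∈ nearby (varList G) (k * G.length) B (walk B (k * G.length) G i),
          c.length ≤ B * G.length ∧
          ∀ a ∈ valuesAt G c, a.natAbs ≤ (k * G.length + 2) ^ G.length :=
  main k

end Pool.Agent.Results.MP_b2b50d_lc.ConstantReadFormulas
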