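import Mathlib
import Pool.Agent.Helper78_ACIT.Circuit
import Pool.Agent.Helper78_ACIT.Prime
import Pool.Agent.Helper12_TRN.NTower
import Pool.Agent.TREN.RNK
import Pool.Agent.TREN.FRM

set_option autoImplicit false

/-!
# `MP_b2b50d_lc`: black-box identity test for constant-read formulas and tree networks, without
multilinearity, and for their orbits and compositions

The test applies to all circuits, of any shape, whose polynomial is zero, or has degree at most `D`
and length at most `2 ^ b` and divides a nonzero product of towers.  A tower of height `0` is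
`P(h_0, ..., h_(N-1))`, where `P` is the output of a tree network of width `r` (every vertex carries
a tensor of polynomials, of any degree, in at most `q` variables, which combines the vectors of the
two children; every variable occurs in at most `k` vertices), and where `h_0, ..., h_(N-1)` are
polynomials in `x_0, ..., x_(n-1)`, for example independent affine forms or the coordinates of a
polynomial automorphism, whose Jacobian matrix has rank `N` at some point with at most `t0` nonzero
coordinates.  Towers of larger height arise by composition.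

For fixed `r`, `k`, `q`, `t0`, fixed height and fixed rank (Strahler number) of the trees the test
consists of polynomially many evaluations of the circuit modulo small primes; without any bound for
the rank it consists of `n ^ O(log n)` evaluations (times polynomial factors), because the rank of a
network in `N` variables is at most `log (k N) + 1`.  Arithmetic formulas in which every variable
occurs at most `k` times, of any depth and not necessarily multilinear, are networks of width `2`.
-/

namespace Pool.Agent.Results.MP_b2b50d_lc.ConstantReadNetworks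

open Pool.Agent.Helper78_ACIT Pool.Agent.UO Pool.Agent.TRN

/-- The value of the circuit `G` in `ZMod p` at the point `x_i = ∑ j, z_j ∏ l < n, l ≠ i, (w_j - l)`
(`i < n`; `x_i = 0` for `i ≥ n`). -/
def testValue (n p N t : ℕ) (w z : Fin t → Fin N) (G : List Gate) : ZMod p :=
  out (point n (fun j => ((w j : ℕ) : ZMod p)) (fun j => ((z j : ℕ) : ZMod p))) G

/-- (1) For all `r`, `k`, `q` there is a number `C` such that the following holds for all
`t ≥ t0 + C (d + 1) (g + 1)`.  Let the polynomial of the well-formed circuit `G` be zero, or let it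
have degree at most `D` and length at most `2 ^ b` and divide, over some field of characteristic
zero, a nonzero product of towers of height at most `g` of networks of rank at most `d` in
`x_0, ..., x_(n-1)`.  Then `G` computes zero if and only if its values at the points
`x_i = ∑ j < t, z_j ∏ l < n, l ≠ i, (w_j - l)`, with `w_j` and `z_j` in `{0, ..., n D}`, are zero
modulo all primes `p ≤ 64 (b + D (t + n ^ 2 (D + 1)) + 1) ^ 2`.
(2) A network in `N` variables can be replaced by one of rank at most `log (k N) + 1`.
(3) A formula in which every variable occurs at most `k` times is a network of width `2`. -/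
theorem result.{v} (r k q : ℕ) :
    (∃ C : ℕ, ∀ (E : Type v) [Field E] [CharZero E] (n t0 d g D b t : ℕ),
      t0 + C * ((d + 1) * (g + 1)) ≤ t → ∀ G : List Gate, WellFormed G →
      (poly G = 0 ∨ ((poly G).totalDegree ≤ D ∧ length (poly G) ≤ 2 ^ b ∧
        ∃ s : List (MvPolynomial (Fin n) E),
          (∀ f ∈ s, ∃ g' ≤ g, IsTower n r k q d t0 g' f) ∧ s.prod ≠ 0 ∧
          MvPolynomial.map (Int.castRingHom E) (poly G) ∣ MvPolynomial.rename Fin.val s.prod)) →
      (G ∈ ACIT ↔ ∀ p, p.Prime → p ≤ 64 * (b + D * (t + n * (n * (D + 1))) + 1) ^ 2 →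
        ∀ w z : Fin t → Fin (n * D + 1), testValue n p (n * D + 1) t w z G = 0)) ∧
    (∀ (E : Type v) [Field E] (N d : ℕ) (f : MvPolynomial (Fin N) E),
      IsNet r k q d f → IsNet r k q (Nat.log 2 (k * N) + 1) f) ∧
    (∀ (E : Type v) [Field E] (N : ℕ) (f : Formula E N), (∀ i, f.reads i ≤ k) →
      IsNet 2 k 1 (Nat.log 2 (k * N) + 1) f.val) := by
  refine ⟨⟨cFin r k q, ?_⟩, ?_, ?_⟩
  · intro E _ _ n t0 d g D b t ht G hG hpoly
    have hval : ∀ (p : ℕ) (w z : Fin t → Fin (n * D + 1)), testValue n p (n * D + 1) t w z G =
        ((MvPolynomial.eval (point n (fun j => ((w j : ℕ) : ℤ)) (fun j => ((z j : ℕ) : ℤ)))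
          (poly G) : ℤ) : ZMod p) := by
      intro p w z
      have h1 := out_map (Int.castRingHom (ZMod p))
        (point n (fun j => ((w j : ℕ) : ℤ)) (fun j => ((z j : ℕ) : ℤ))) G
      have h2 : (fun i => Int.castRingHom (ZMod p)
          (point n (fun j => ((w j : ℕ) : ℤ)) (fun j => ((z j : ℕ) : ℤ)) i)) =
          point n (fun j => ((w j : ℕ) : ZMod p)) (fun j => ((z j : ℕ) : ZMod p)) := by
        funext i
        rw [point_map]
        simp
      rw [h2] at h1
      unfold testValue
      rw [← h1, out_eq_eval]
      rfl
    constructor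
    · rintro ⟨-, h0⟩ p _ _ w z
      rw [hval, h0, map_zero, Int.cast_zero]
    · intro htest
      refine ⟨hG, ?_⟩
      rcases hpoly with h0 | ⟨hD, hb, s, hs, hs0, hdvd⟩
      · exact h0
      exfalso
      obtain ⟨w, z, hw, hz, hne⟩ := CMP.int_hit_of n D t (poly G) hD _
        (family_hitN n r k q d t0 g t ht s hs hs0) hdvd
      obtain ⟨V, hV⟩ : ∃ V, V = MvPolynomial.eval
        (point n (fun j => (w j : ℤ)) (fun j => (z j : ℤ))) (poly G) := ⟨_, rfl⟩
      rw [← hV] at hne
      have hVle : V.natAbs ≤ 2 ^ (b + D * (t + n * (n * (D + 1)))) := by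
        rw [hV]
        refine (natAbs_eval_le (poly G) _ (2 ^ (t + n * (n * (D + 1)))) D
          (Nat.one_le_pow _ _ (by norm_num)) (natAbs_point_le n D t w z hw hz) hD).trans ?_
        rw [← pow_mul, pow_add, mul_comm (t + n * (n * (D + 1))) D]
        exact Nat.mul_le_mul_right _ hb
      obtain ⟨p, hp, hple, hpnd⟩ := exists_prime_not_dvd V.natAbs _ (Int.natAbs_ne_zero.mpr hne)
        hVle
      apply hpnd
      have h1 := htest p hp hple (fun j => ⟨w j, Nat.lt_succ_of_le (hw j)⟩)
        (fun j => ⟨z j, Nat.lt_succ_of_le (hz j)⟩)
      rw [hval] at h1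
      have h2 : ((V : ℤ) : ZMod p) = 0 := by
        rw [hV]
        exact h1
      rw [ZMod.intCast_zmod_eq_zero_iff_dvd, Int.natCast_dvd] at h2
      exact h2
  · rintro E _ N d f ⟨t, a, hq, hk, _, hf⟩
    exact ⟨t, a, hq, hk, rnk E N r k t hk, hf⟩
  · intro E _ N f hf
    obtain ⟨t, h1, h2, h3⟩ := frm E N f
    have hk : ∀ i, t.nodes.countP (fun V => decide (i ∈ V)) ≤ k := by
      intro i
      rw [h2]
      exact hf i
    refine ⟨t, ![0, 1], h1, hk, rnk E N 2 k t hk, ?_⟩
    rw [Fin.sum_univ_two, ← h3]
    simp

end Pool.Agent.Results.MP_b2b50d_lc.ConstantReadNetworks
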