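import Pool.Agent.Helper12_Clust.Reduce

set_option autoImplicit false

/-!
# `MP_b2b50d_lc`: from binary exponents to polynomial degree

Let `f = ∑_{i ∈ ι} A_i ∏_{j ∈ J} p_j ^ e_ij` over a field of characteristic zero, in any variables,
where the `p_j` are nonconstant pairwise coprime polynomials (e.g. pairwise nonproportional linear
forms), the `A_i` are arbitrary polynomials, and the exponents `e_ij` are arbitrary (written in
binary they make the degree of `f` exponential).  Put `N = |ι|` and

  `bound A p = (N - 1) (N - 2) ∑ deg p_j + ∑ deg A_i`,

which does not depend on the exponents.  Join the terms `i`, `i'` if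
`∑_j max(e_ij - e_i'j, 0) deg p_j ≤ bound A p` and the same with `i`, `i'` exchanged, and call the
connected components clusters.  The theorem says that `f = 0` iff for every cluster the sum of its
terms, divided by the common factor `∏_j p_j ^ (min over the cluster of e_ij)`, is zero, and that in
these reduced sums all exponents are at most `(N - 1) * bound A p`.

So identity testing of such (depth-4, resp. depth-3) sums with exponents in binary reduces to at most
`N` identity tests of sums of the same form, with the same `A_i` and `p_j`, whose exponents are
polynomially bounded.  The proof is an n-term version of the polynomial ABC theorem in several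
variables, by generalised Wronskians.
-/

namespace Pool.Agent.Helper12_Moved.DegreeReduction

open Pool.Agent.Helper12_Clust MvPolynomial

/-- Degree reduction for sums of products of powers. -/
theorem result {σ k ι J : Type} [Field k] [CharZero k] [Fintype ι] [Fintype J]
    (A : ι → MvPolynomial σ k) (p : J → MvPolynomial σ k) (e : ι → J → ℕ)
    (hp : ∀ j, 1 ≤ (p j).totalDegree) (hcop : Pairwise fun i j => IsRelPrime (p i) (p j)) :
    (∑ i, A i * ∏ j, p j ^ e i j = 0 ↔
      ∀ i0, ∑ i ∈ clusterOf A p e i0, A i * ∏ j, p j ^ redExp A p e i0 i j = 0) ∧
    ∀ i0, ∀ i ∈ clusterOf A p e i0, ∀ j,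
      redExp A p e i0 i j ≤ (Fintype.card ι - 1) * bound A p :=
  reduce A p e hp hcop

end Pool.Agent.Helper12_Moved.DegreeReduction
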