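import Mathlib
import Pool.Agent.Helper78_ACIT.Circuit
import Pool.Agent.Helper78_ACIT.Defs
import Pool.Agent.Helper78_ACIT.Sparse

set_option autoImplicit false

open Pool.Agent.Helper78_ACIT

namespace Pool.Agent.Results.MP_b2b50d_lc.DigitSparseTest

/-- An explicit deterministic zero test, with polynomially many moduli of polynomially many bits, for
circuits of unbounded (exponential) degree and unbounded (doubly exponential) coefficients.

Promise: the polynomial `f` computed by the circuit `C` is zero, or it divides a product
`h * β₁ ^ m₁ * ... * β_T ^ m_T` where `h ≠ 0` has at most `W` nonzero signed base `b` digits in all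
its coefficients together and each `βᵢ` is a sum of two terms `± b ^ e * x ^ α` (all exponents of `b`
and of the variables `x_0, ..., x_(v-1)` in `h` and the `βᵢ` being below `2 ^ S`, while the
multiplicities `mᵢ` are arbitrary).

Test: for all `r` up to the polynomial bound `bound b W T S v`, run the circuit modulo
`1 + b + ... + b ^ (r - 1)` at the point `x_j = b ^ (2 ^ (S * (j + 1)))`, which is computed by
repeated squaring. Then `C ∈ ACIT` if and only if all these values are zero. -/
theorem result (b W T S v : ℕ) (hb : 2 ≤ b) (C : List Gate) (hC : WellFormed C)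
    (hpromise : poly C = 0 ∨ ∃ (h : MvPolynomial ℕ ℤ) (β : Fin T → MvPolynomial ℕ ℤ)
      (m : Fin T → ℕ), h ≠ 0 ∧ DigitSparse b W S v h ∧ (∀ i, IsBinomial b S v (β i)) ∧
        poly C ∣ h * ∏ i, β i ^ m i) :
    C ∈ ACIT ↔ ∀ r, 1 ≤ r → r ≤ bound b W T S v →
      out (fun j => (b : ZMod (repunit b r)) ^ (2 ^ (S * (j + 1)))) C = 0 :=
  main_test b W T S v hb C hC hpromise

end Pool.Agent.Results.MP_b2b50d_lc.DigitSparseTest
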