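import Mathlib
import Pool.Agent.Helper78_ACIT.Circuit
import Pool.Agent.Helper12_FV.Bound

set_option autoImplicit false

/-!
Deterministic identity test for circuits of unbounded degree whose output is a sum of products of
powers of arbitrary dense polynomials in a fixed number of variables.
-/

namespace Pool.Agent.Helper12_Moved.FewVariables

open Polynomial Pool.Agent.Helper78_ACIT

/-- The sum of the absolute values of the coefficients. -/
noncomputable def length {n : ℕ} (f : MvPolynomial (Fin n) ℤ) : ℕ :=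
  ∑ d ∈ f.support, (f.coeff d).natAbs

/-- The value of the circuit `G` at the point `x_s = α_s + β_s X` (and `x_s = 0` for `s ≥ n`) in
the finite ring `F_p[X] / (X ^ N)`. -/
noncomputable def testValue (n p N : ℕ) (α β : Fin n → ZMod p) (G : List Gate) :
    AdjoinRoot (X ^ N : (ZMod p)[X]) :=
  out (fun s => if h : s < n then AdjoinRoot.of _ (α ⟨s, h⟩) +
    AdjoinRoot.of _ (β ⟨s, h⟩) * AdjoinRoot.root _ else 0) G

/-- Substituting a line into a polynomial over `ℤ`. -/
noncomputable def onLine (n p : ℕ) (α β : Fin n → ZMod p) :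
    MvPolynomial ℕ ℤ →+* (ZMod p)[X] :=
  MvPolynomial.eval₂Hom (Int.castRingHom (ZMod p)[X])
    (fun s => if h : s < n then C (α ⟨s, h⟩) + C (β ⟨s, h⟩) * X else 0)

lemma testValue_eq (n p N : ℕ) (α β : Fin n → ZMod p) (G : List Gate) :
    testValue n p N α β G = AdjoinRoot.mk _ (onLine n p α β (poly G)) := by
  have h1 := out_map (AdjoinRoot.mk (X ^ N : (ZMod p)[X]))
    (fun s => if h : s < n then C (α ⟨s, h⟩) + C (β ⟨s, h⟩) * X else 0) G
  have h2 : (fun s => AdjoinRoot.mk (X ^ N : (ZMod p)[X])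
      (if h : s < n then C (α ⟨s, h⟩) + C (β ⟨s, h⟩) * X else 0)) =
      fun s => if h : s < n then AdjoinRoot.of (X ^ N : (ZMod p)[X]) (α ⟨s, h⟩) +
        AdjoinRoot.of _ (β ⟨s, h⟩) * AdjoinRoot.root _ else 0 := by
    funext s
    split_ifs
    · simp only [map_mul, map_add, AdjoinRoot.mk_C, AdjoinRoot.mk_X]
    · rw [map_zero]
  rw [h2] at h1
  unfold testValue
  rw [← h1, out_eq_eval]
  rfl

lemma onLine_rename (n p : ℕ) (α β : Fin n → ZMod p) (F : MvPolynomial (Fin n) ℤ) :
    onLine n p α β (MvPolynomial.rename Fin.val F) = Helper12_FV.onl α β F := by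
  have h : (onLine n p α β).comp (MvPolynomial.rename (R := ℤ) (Fin.val : Fin n → ℕ)).toRingHom =
      Helper12_FV.onl α β := by
    apply MvPolynomial.ringHom_ext
    · intro z
      simp
    · intro s
      rw [Helper12_FV.onl_X]
      simp [onLine]
  exact RingHom.congr_fun h F

/-- Let `F = ∑ i < k, A_i ∏ j < m, f_j ^ e_ij` where the `f_j` and `A_i` are arbitrary polynomials
of degree at most `D` and length at most `2 ^ b` in `ℤ[x_0, ..., x_(n-1)]`, the `f_j` are primitive
(no integer other than `1` and `-1` divides `f_j`), and the exponents `e_ij` are at most `2 ^ b`.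
Then a circuit `G` whose polynomial is zero or divides `F ≠ 0` computes zero if and only if it
vanishes at all the points `x_s = α_s + β_s X` modulo `X ^ (k ^ 2 m D + k D + k)` over `F_p`, for
all primes `p ≤ (m + k + b + D + 2) ^ 50`. -/
theorem result (n m k D b : ℕ) (f : Fin m → MvPolynomial (Fin n) ℤ)
    (A : Fin k → MvPolynomial (Fin n) ℤ) (e : Fin k → Fin m → ℕ)
    (hprim : ∀ j, ∀ z : ℤ, MvPolynomial.C z ∣ f j → IsUnit z)
    (hfD : ∀ j, (f j).totalDegree ≤ D) (hAD : ∀ i, (A i).totalDegree ≤ D)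
    (hfb : ∀ j, length (f j) ≤ 2 ^ b) (hAb : ∀ i, length (A i) ≤ 2 ^ b)
    (he : ∀ i j, e i j ≤ 2 ^ b) (G : List Gate) (hG : WellFormed G)
    (hpoly : poly G = 0 ∨
      (∑ i, A i * ∏ j, f j ^ e i j ≠ 0 ∧
        poly G ∣ MvPolynomial.rename Fin.val (∑ i, A i * ∏ j, f j ^ e i j))) :
    G ∈ ACIT ↔ ∀ p, p.Prime → p ≤ (m + k + b + D + 2) ^ 50 →
      ∀ α β : Fin n → ZMod p, testValue n p (k ^ 2 * m * D + k * D + k) α β G = 0 := by
  constructor
  · rintro ⟨-, h0⟩ p _ _ α β
    rw [testValue_eq, h0, map_zero, map_zero]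
  · intro htest
    refine ⟨hG, ?_⟩
    rcases hpoly with h0 | ⟨hF, hdvd⟩
    · exact h0
    exfalso
    obtain ⟨R, hR⟩ : ∃ R, R = m + k + b + D + 2 := ⟨_, rfl⟩
    obtain ⟨hb1, hb2, hb3, hb4⟩ := Helper12_FV.bound_le m k b D R hR
    obtain ⟨p, hp, hple, α, β, hhit⟩ := Helper12_FV.exists_hit_general m k D (m * D) b (m + D + b)
      (R ^ 6) (12 * R) (R ^ 11) (k * (D + k * (m * D))) f A e hprim hfD hAD hfb hAb he le_rfl
      le_rfl rfl (Nat.one_le_pow _ _ (by omega)) hb1 hb2 hb3 hF
    have h1 := htest p hp (by rw [← hR]; exact hple.trans hb4) α β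
    rw [testValue_eq, AdjoinRoot.mk_eq_zero] at h1
    apply hhit (k ^ 2 * m * D + k * D + k) (by
      have : k * (D + k * (m * D)) = k ^ 2 * m * D + k * D := by ring
      rw [this])
    rw [← onLine_rename]
    exact h1.trans (map_dvd (onLine n p α β) hdvd)

end Pool.Agent.Helper12_Moved.FewVariables
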