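import Mathlib
import Pool.Agent.Helper78_ACIT.Circuit
import Pool.Agent.Helper12_CW.Bound

set_option autoImplicit false

/-!
# `MP_b2b50d_lc`: black-box identity test for read-once branching programs of bounded width and
exponential degree

The test applies to all circuits, of any shape, whose polynomial is zero or divides a nonzero
polynomial computed by a read-once oblivious branching program of width `w` with `n` layers.  Each
layer has its own `c` variables and is a combination, with integer matrices as coefficients, of `k`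
products of powers of arbitrary primitive polynomials, with exponents written in binary.
-/

namespace Pool.Agent.Results.MP_b2b50d_lc.SmallWidth

open Polynomial Matrix Pool.Agent.Helper78_ACIT Pool.Agent.Helper12_CW

/-- The sum of the absolute values of the coefficients. -/
noncomputable def length {c : ℕ} (f : MvPolynomial (Fin c) ℤ) : ℕ :=
  ∑ d ∈ f.support, (f.coeff d).natAbs

/-- The polynomial `a P_0 P_1 ... P_(n-1) z` of the read-once program whose layer `B` is the
`w × w` matrix `P_B = ∑ u < k, g_(B,u) M_(B,u)` with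
`g_(B,u) = A_(B,u) ∏ j < m, f_(B,j) ^ e_(B,u,j)` in the variables `x_(Bc), ..., x_(Bc+c-1)`. -/
noncomputable def program {n m k c w : ℕ} (f : Fin n → Fin m → MvPolynomial (Fin c) ℤ)
    (A : Fin n → Fin k → MvPolynomial (Fin c) ℤ) (e : Fin n → Fin k → Fin m → ℕ)
    (M : Fin n → Fin k → Matrix (Fin w) (Fin w) ℤ) (a z : Fin w → ℤ) : MvPolynomial ℕ ℤ :=
  (fun i => MvPolynomial.C (a i)) ⬝ᵥ ((List.ofFn fun B : Fin n =>
    ∑ u, MvPolynomial.rename (fun s : Fin c => (B : ℕ) * c + s) (A B u * ∏ j, f B j ^ e B u j) •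
      (M B u).map MvPolynomial.C).prod *ᵥ fun i => MvPolynomial.C (z i))

/-- The value of the circuit `G` at the point `x_(Bc+s) = α_s + φ_B(t) ^ (N ^ c + N ^ s)` of the
finite ring `F_p[t] / (t ^ R)`, where `φ_B = curve w t L B`. -/
noncomputable def testValue (c w L N R p : ℕ) (α : Fin c → ZMod p) (G : List Gate) :
    AdjoinRoot (X ^ R : (ZMod p)[X]) :=
  out (fun i => if h : i % c < c then AdjoinRoot.of _ (α ⟨i % c, h⟩) +
    curve w (AdjoinRoot.root _) L (i / c) ^ (N ^ c + N ^ (i % c)) else 0) G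

/-- The substitution on polynomials. -/
noncomputable def onCurve (c w L N p : ℕ) (α : Fin c → ZMod p) : MvPolynomial ℕ ℤ →+* (ZMod p)[X] :=
  MvPolynomial.eval₂Hom (Int.castRingHom (ZMod p)[X]) (fun i => if h : i % c < c then
    C (α ⟨i % c, h⟩) + curve w X L (i / c) ^ (N ^ c + N ^ (i % c)) else 0)

lemma testValue_eq (c w L N R p : ℕ) (α : Fin c → ZMod p) (G : List Gate) :
    testValue c w L N R p α G = AdjoinRoot.mk _ (onCurve c w L N p α (poly G)) := by
  have h1 := out_map (AdjoinRoot.mk (X ^ R : (ZMod p)[X]))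
    (fun i => if h : i % c < c then
      C (α ⟨i % c, h⟩) + curve w X L (i / c) ^ (N ^ c + N ^ (i % c)) else 0) G
  have h2 : (fun i => AdjoinRoot.mk (X ^ R : (ZMod p)[X]) (if h : i % c < c then
      C (α ⟨i % c, h⟩) + curve w X L (i / c) ^ (N ^ c + N ^ (i % c)) else 0)) =
      fun i => if h : i % c < c then AdjoinRoot.of (X ^ R : (ZMod p)[X]) (α ⟨i % c, h⟩) +
        curve w (AdjoinRoot.root _) L (i / c) ^ (N ^ c + N ^ (i % c)) else 0 := by
    funext i
    by_cases h : i % c < c
    · rw [dif_pos h, dif_pos h, map_add, map_pow, AdjoinRoot.mk_C, map_curve, AdjoinRoot.mk_X]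
    · rw [dif_neg h, dif_neg h, map_zero]
  rw [h2] at h1
  unfold testValue
  rw [← h1, out_eq_eval]
  rfl

lemma onCurve_ren (c w L N p : ℕ) (α : Fin c → ZMod p) (B : ℕ) (g : MvPolynomial (Fin c) ℤ) :
    onCurve c w L N p α (ren B g) = (onW N (sh α g)).comp (curve w X L B) := by
  have h : (onCurve c w L N p α).comp (ren B) =
      (compRingHom (curve w X L B)).comp ((onW N).comp (sh α)) := by
    apply MvPolynomial.ringHom_ext
    · intro t
      simp
    · intro s
      have hs : (s : ℕ) < c := s.2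
      have e1 : (B * c + s) % c = s := by
        rw [Nat.add_comm, Nat.add_mul_mod_self_right, Nat.mod_eq_of_lt hs]
      have e2 : (B * c + s) / c = B := by
        rw [Nat.add_comm, Nat.add_mul_div_right _ _ (lt_of_le_of_lt (Nat.zero_le _) hs),
          Nat.div_eq_of_lt hs, zero_add]
      have e3 : (⟨(B * c + s) % c, by rw [e1]; exact hs⟩ : Fin c) = s := Fin.ext e1
      have h1 : ((onCurve c w L N p α).comp (ren B)) (MvPolynomial.X s) =
          C (α s) + curve w X L B ^ (N ^ c + N ^ (s : ℕ)) := by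
        rw [RingHom.comp_apply, ren_apply, MvPolynomial.rename_X]
        unfold onCurve
        rw [MvPolynomial.coe_eval₂Hom, MvPolynomial.eval₂_X,
          dif_pos (show (B * c + s) % c < c by rw [e1]; exact hs), e3, e1, e2]
      have h2 : ((compRingHom (curve w X L B)).comp ((onW N).comp (sh α))) (MvPolynomial.X s) =
          C (α s) + curve w X L B ^ (N ^ c + N ^ (s : ℕ)) := by
        rw [RingHom.comp_apply, RingHom.comp_apply]
        simp [sh, onW]
      rw [h1, h2]
  exact RingHom.congr_fun h g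

lemma onCurve_prog {c k w : ℕ} (L N p n : ℕ) (α : Fin c → ZMod p) (a z : Fin w → ℤ)
    (g : ℕ → Fin k → MvPolynomial (Fin c) ℤ) (M : ℕ → Fin k → Matrix (Fin w) (Fin w) ℤ) :
    onCurve c w L N p α (prog n a z g M) =
      val n (fun i => C ((a i : ℤ) : ZMod p)) (fun i => C ((z i : ℤ) : ZMod p))
        (fun B => ∑ u, ((onW N (sh α (g B u))).comp (curve w X L B)) •
          (M B u).map (fun x : ℤ => C (x : ZMod p))) := by
  have hC : ∀ t : ℤ, onCurve c w L N p α (MvPolynomial.C t) = C ((t : ℤ) : ZMod p) := by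
    intro t
    simp
  unfold prog
  rw [map_val]
  simp only [hC]
  apply val_congr
  intro B _
  ext1 i j
  rw [Matrix.map_apply, Matrix.sum_apply, Matrix.sum_apply, map_sum]
  apply Finset.sum_congr rfl
  intro u _
  rw [Matrix.smul_apply, Matrix.smul_apply, Matrix.map_apply, Matrix.map_apply, smul_eq_mul,
    smul_eq_mul, map_mul, onCurve_ren, hC]

lemma program_eq {n m k c w : ℕ} (hn : 1 ≤ n) (f : Fin n → Fin m → MvPolynomial (Fin c) ℤ)
    (A : Fin n → Fin k → MvPolynomial (Fin c) ℤ) (e : Fin n → Fin k → Fin m → ℕ)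
    (M : Fin n → Fin k → Matrix (Fin w) (Fin w) ℤ) (a z : Fin w → ℤ) (r : ℕ → Fin n)
    (hr : ∀ B : Fin n, r B = B) :
    program f A e M a z =
      prog n a z (fun B u => A (r B) u * ∏ j, f (r B) j ^ e (r B) u j) (fun B u => M (r B) u) := by
  unfold program prog val
  congr 3
  apply List.ext_getElem
  · simp
  · intro i h1 h2
    rw [List.length_ofFn] at h1
    rw [List.getElem_ofFn, List.getElem_map, List.getElem_range]
    simp only [hr ⟨i, h1⟩, ren_apply]

/-- Let `F` be the polynomial of a read-once program of width `w` with `n ≤ 2 ^ L` layers, each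
with its own `c` variables: the layer `B` is `∑ u < k, A_(B,u) ∏ j < m, f_(B,j) ^ e_(B,u,j) M_(B,u)`
with arbitrary polynomials `A_(B,u)` and primitive polynomials `f_(B,j)` of degree at most `D` and
length at most `2 ^ b`, exponents at most `2 ^ b`, and integer matrices `M_(B,u)` with entries of
absolute value at most `2 ^ b`.  Let `N = k ^ 2 m D + k D + k` and `R = (2 w) ^ L N ^ (c + 1)`.
Then a circuit `G` whose polynomial is zero or divides `F ≠ 0` computes zero if and only if it
vanishes at all the points `x_(Bc+s) = α_s + φ_B(t) ^ (N ^ c + N ^ s)` of `F_p[t] / (t ^ R)`,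
`α` in `F_p ^ c`, for all primes `p ≤ (n + m + k + w + b + D + R + 2) ^ 60`. -/
theorem result (n m k c w D b L N R : ℕ) (hn : 1 ≤ n) (hL : n ≤ 2 ^ L)
    (hN : N = k ^ 2 * m * D + k * D + k) (hR : R = (2 * w) ^ L * N ^ (c + 1))
    (f : Fin n → Fin m → MvPolynomial (Fin c) ℤ) (A : Fin n → Fin k → MvPolynomial (Fin c) ℤ)
    (e : Fin n → Fin k → Fin m → ℕ) (M : Fin n → Fin k → Matrix (Fin w) (Fin w) ℤ)
    (a z : Fin w → ℤ)
    (hprim : ∀ B j, ∀ t : ℤ, MvPolynomial.C t ∣ f B j → IsUnit t)
    (hfD : ∀ B j, (f B j).totalDegree ≤ D) (hAD : ∀ B u, (A B u).totalDegree ≤ D)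
    (hfb : ∀ B j, length (f B j) ≤ 2 ^ b) (hAb : ∀ B u, length (A B u) ≤ 2 ^ b)
    (he : ∀ B u j, e B u j ≤ 2 ^ b) (hM : ∀ B u i j, (M B u i j).natAbs ≤ 2 ^ b)
    (ha : ∀ i, (a i).natAbs ≤ 2 ^ b) (hz : ∀ i, (z i).natAbs ≤ 2 ^ b)
    (G : List Gate) (hG : WellFormed G)
    (hpoly : poly G = 0 ∨ (program f A e M a z ≠ 0 ∧ poly G ∣ program f A e M a z)) :
    G ∈ ACIT ↔ ∀ p, p.Prime → p ≤ (n + m + k + w + b + D + R + 2) ^ 60 →
      ∀ α : Fin c → ZMod p, testValue c w L N R p α G = 0 := by
  constructor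
  · rintro ⟨-, h0⟩ p _ _ α
    rw [testValue_eq, h0, map_zero, map_zero]
  · intro htest
    refine ⟨hG, ?_⟩
    rcases hpoly with h0 | ⟨hF, hdvd⟩
    · exact h0
    exfalso
    obtain ⟨r, hr⟩ : ∃ r : ℕ → Fin n, ∀ B : Fin n, r B = B := by
      refine ⟨fun B => ⟨min B (n - 1), by omega⟩, fun B => Fin.ext ?_⟩
      simp only
      have := B.2
      omega
    have hprog := program_eq hn f A e M a z r hr
    obtain ⟨Q, hQ⟩ : ∃ Q, Q = n + m + k + w + b + D + R + 2 := ⟨_, rfl⟩
    obtain ⟨Rb, hRb⟩ : ∃ Rb, Rb = R + (k * (D + k * (m * D)) + (m * D +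
      m * D * (m * D) * (2 * D * D) + (D + k * (k * (D + k * (m * D))) * (m * D)))) + 1 := ⟨_, rfl⟩
    obtain ⟨h1, h2, h3, h4, h5, h6⟩ := Helper12_CW.bound_le n m k b D w R Q hQ Rb hRb
    have hNB : k * (D + k * (m * D)) + k = N := by rw [hN]; ring
    rw [hprog] at hF hdvd
    obtain ⟨p, hp, hple, α, hhit⟩ := exists_hit n m k D b (k * (D + k * (m * D))) w L N (Q ^ 9)
      (Q ^ 11) (10 * Q) (12 * Q) (Q ^ 6) Rb hn (fun B => f (r B)) (fun B => A (r B))
      (fun B => e (r B)) (fun B => M (r B)) a z (fun B => hprim _) (fun B => hfD _)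
      (fun B => hAD _) (fun B => hfb _) (fun B => hAb _) (fun B => he _) (fun B => hM _) ha hz
      le_rfl h1 (Nat.one_le_pow _ _ (by omega)) h2 h3 h4 (Nat.one_le_pow _ _ (by omega)) h5
      (by omega) (by omega) (by rw [← hR]; omega) hNB.le hL hF
    have h7 := htest p hp (by rw [← hQ]; exact hple.trans h6) α
    rw [testValue_eq, AdjoinRoot.mk_eq_zero] at h7
    apply hhit
    rw [← hR, ← onCurve_prog]
    exact h7.trans (map_dvd (onCurve c w L N p α) hdvd)

end Pool.Agent.Results.MP_b2b50d_lc.SmallWidth
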